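import Pool.Agent.MHP.Stmts

/-! Squad MHP (MP_09e7c7_co), row EVI: isomorphic pieces. -/

set_option autoImplicit false

namespace Pool.Agent.MHP.H35

open Pool.Agent.HMT Pool.Agent.MHP

/-- EVI -/
theorem evi : EviStmt := by
  intro M f hf A B hAB W _ S T x
  obtain ⟨φ, hφ⟩ := hAB
  have key : ∀ u v : A.V, B.G.Adj (φ u) (φ v) ↔ A.G.Adj u v := fun u v => φ.map_adj_iff
  have key' : ∀ v : A.V, B.G.Adj B.r (φ v) ↔ A.G.Adj A.r v := by
    intro v
    rw [← hφ]
    exact key A.r v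
  have hne : ∀ v : A.V, v ≠ A.r ↔ φ v ≠ B.r := by
    intro v
    rw [← hφ]
    exact not_congr φ.toEquiv.apply_eq_iff_eq.symm
  refine hf _ _ (Equiv.sumCongr (Equiv.refl W) (φ.toEquiv.subtypeEquiv hne)) _ _ _ _ ?_ ?_
  · rintro (a | u) (b | v)
    · exact Iff.rfl
    · exact Iff.rfl
    · exact Iff.rfl
    · exact Iff.rfl
  · rintro (a | u) (b | v)
    · exact Iff.rfl
    · exact and_congr Iff.rfl (key' v.1)
    · exact and_congr Iff.rfl (key' u.1)
    · exact key u.1 v.1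

end Pool.Agent.MHP.H35
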